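import Mathlib
import Pool.Agent.H2.AM1

set_option autoImplicit false

namespace Pool.Agent.Results.MP_e403d1_gt.ClosedSub

open Filter Topology Set H2.AM

/-- the set `(1/n)U` -/
def frac {G : Type} [AddCommGroup G] (U : Set G) (n : ℕ) : Set G :=
  {x | ∀ k : ℕ, 1 ≤ k → k ≤ n → k • x ∈ U}

/-- Hausdorff, with no strictly coarser Hausdorff group topology -/
def Minimal (G : Type) [AddCommGroup G] [t : TopologicalSpace G] : Prop :=
  T2Space G ∧
    ∀ s : TopologicalSpace G, @IsTopologicalAddGroup G s _ → @T2Space G s → t ≤ s → s = t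

/-- uniformly free from small subgroups -/
def UFSS (G : Type) [AddCommGroup G] [TopologicalSpace G] : Prop :=
  T2Space G ∧ ∃ U ∈ nhds (0 : G), (∀ x ∈ U, -x ∈ U) ∧
    (nhds (0 : G)).HasBasis (fun n : ℕ => 1 ≤ n) (frac U)

/-- almost minimal -/
def AlmostMinimal (G : Type) [AddCommGroup G] [TopologicalSpace G] : Prop :=
  ∃ N : AddSubgroup G, IsClosed (N : Set G) ∧ Minimal N ∧ UFSS (G ⧸ N)

theorem frac_nhds {G : Type} [AddCommGroup G] [TopologicalSpace G] [IsTopologicalAddGroup G]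
    {U : Set G} (hU : U ∈ nhds (0 : G)) (n : ℕ) : frac U n ∈ nhds (0 : G) :=
  mem_of_superset ((biInter_mem (finite_Iic n)).2 fun k _ =>
    (continuous_nsmul k).tendsto' (0 : G) 0 (smul_zero k) hU) fun _ hx k _ hk => mem_iInter₂.1 hx k hk

theorem am (w : ℕ → ℝ) : AlmostMinimal (GG w) := by
  let f : GG w →+ ℝ := (AddMonoidHom.snd _ _).comp (GG w).subtype
  have hf : Continuous f := continuous_snd.comp continuous_subtype_val
  have hN : IsClosed (f.ker : Set (GG w)) := isClosed_eq hf continuous_const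
  let ι : f.ker →+ KK := ((AddMonoidHom.fst _ _).comp (GG w).subtype).comp f.ker.subtype
  have hι : IsInducing ι := IsInducing.of_comp (g := fun k : KK => (k, (0 : ℝ)))
    (continuous_fst.comp (continuous_subtype_val.comp continuous_subtype_val)) (by fun_prop) (by
      convert IsInducing.subtypeVal.comp (IsInducing.subtypeVal (t := (f.ker : Set (GG w)))) using 1
      exact funext fun x => Prod.ext rfl x.2.symm)
  have h1 : QuotientAddGroup.mk '' {g | |f g| ≤ 1} ∈ 𝓝 (0 : GG w ⧸ f.ker) := by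
    rw [← QuotientAddGroup.mk_zero, QuotientAddGroup.nhds_eq]
    exact image_mem_map ((hf.abs.tendsto' 0 0 (by simp)).eventually (ge_mem_nhds one_pos))
  refine ⟨f.ker, hN, ⟨inferInstance, ?_⟩, inferInstance, _, h1, ?_, hasBasis_iff.2 fun T =>
    ⟨fun hT => ?_, fun ⟨n, _, hT⟩ => mem_of_superset (frac_nhds h1 n) hT⟩⟩
  · rw [hι.eq_induced]
    refine ess_min ι fun C hC y hy h0 => ?_
    obtain ⟨z, h2, h3, h4⟩ := ess w C hC y hy h0
    exact ⟨⟨⟨_, h4⟩, rfl⟩, fun h => h3 (congrArg ι h), h2⟩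
  · rintro _ ⟨x, hx, rfl⟩
    exact ⟨-x, by simpa using hx, rfl⟩
  rw [← QuotientAddGroup.mk_zero, QuotientAddGroup.nhds_eq, mem_map, mem_nhds_subtype] at hT
  obtain ⟨O, hO, hT⟩ := hT
  obtain ⟨ε, hε, h2⟩ := Metric.mem_nhds_iff.1
    ((show Continuous fun t : ℝ => ((0 : KK), t) by fun_prop).tendsto 0 hO)
  obtain ⟨n, hn⟩ := exists_nat_one_div_lt hε
  refine ⟨n + 1, by omega, fun z hz => ?_⟩
  obtain ⟨x, rfl⟩ := QuotientAddGroup.mk_surjective z
  obtain ⟨a, a1, a2⟩ := hz (n + 1) (by omega) le_rfl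
  have h3 : f (-a + (n + 1) • x) = 0 := QuotientAddGroup.eq.1 a2
  rw [map_add, map_neg, neg_add_eq_zero, map_nsmul] at h3
  rw [mem_setOf_eq, h3, nsmul_eq_mul, abs_mul, Nat.cast_succ, abs_of_pos (by positivity),
    ← le_div_iff₀' (by positivity)] at a1
  obtain ⟨-, c, -, -, h4⟩ := x.2
  have h5 := hT (a := ⟨(0, f x), 0, c, by simp, by simpa using IsOfFinAddOrder.zero, h4⟩)
    (h2 (mem_ball_zero_iff.2 (a1.trans_lt hn)))
  refine mem_of_eq_of_mem (QuotientAddGroup.eq.2 ?_) (mem_preimage.1 h5)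
  exact neg_add_cancel (f x)

/-- An almost minimal abelian group with a closed subgroup that is not almost minimal. -/
theorem result : ∃ (G : Type) (_ : AddCommGroup G) (_ : TopologicalSpace G),
    IsTopologicalAddGroup G ∧ T2Space G ∧ AlmostMinimal G ∧
      ∃ H : AddSubgroup G, IsClosed (H : Set G) ∧ ¬ AlmostMinimal H := by
  obtain ⟨w, w1, w2⟩ := exists_w
  let f : GG w →+ UnitAddCircle := AddMonoidHom.mk' (fun x => x.1.1.2 - (x.1.2 : ℝ)) fun x y => by
    simp only [AddSubgroup.coe_add, Prod.fst_add, Prod.snd_add, AddCircle.coe_add, add_sub_add_comm]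
  have hf : ∀ x : f.ker, x.1.1.1.2 = (x.1.1.2 : ℝ) := fun x => sub_eq_zero.1 x.2
  refine ⟨GG w, inferInstance, inferInstance, inferInstance, inferInstance, am w, f.ker,
    isClosed_eq (show Continuous fun x : GG w => x.1.1.2 - (x.1.2 : ℝ) by fun_prop) continuous_const,
    ?_⟩
  rintro ⟨M, -, ⟨-, h1⟩, -, U, hU, -, hb⟩
  let ι : M →+ KK := (((AddMonoidHom.fst _ _).comp (GG w).subtype).comp f.ker.subtype).comp M.subtype
  have h2 := h1 (.induced ι inferInstance) (topologicalAddGroup_induced ι)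
    (@IsEmbedding.t2Space _ _ (.induced ι inferInstance) _ _ ι (@IsEmbedding.mk _ _ (_) _ _
      (@IsInducing.mk _ _ (_) _ _ rfl) ((injective_iff_map_eq_zero ι).2 fun x hx => by
      obtain ⟨-, c, -, -, h⟩ := x.1.1.2
      have h3 : x.1.1.1.1 = 0 := hx
      have h4 := hf x.1
      rw [h3, h] at h4
      rw [w2 c (by rw [show ((Finsupp.linearCombination ℤ w c : ℝ) : UnitAddCircle) = 0 from h4.symm]
                   exact IsOfFinAddOrder.zero), map_zero] at h
      exact Subtype.ext (Subtype.ext (Subtype.ext (Prod.ext h3 h))))))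
    (continuous_iff_le_induced.1 (show Continuous fun x : M => x.1.1.1.1 by fun_prop))
  have h3 : ∀ x ∈ M, 2 • x.1.1.1.1 = 0 := fun x hx => by
    have h3 : x.1.1.2 = 0 := by
      by_contra h3
      have h4 : {y : M | |y.1.1.1.2| < |x.1.1.2|} ∈ 𝓝 (0 : M) :=
        ((show Continuous fun y : M => |y.1.1.1.2| by fun_prop).tendsto' 0 0 (by simp)).eventually
          (gt_mem_nhds (abs_pos.2 h3))
      rw [← h2, nhds_induced, map_zero] at h4
      obtain ⟨O, hO, h4⟩ := h4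
      obtain ⟨n, h5, h6⟩ := ((mapClusterPt_iff_frequently.1 (mapClusterPt_zero_atTop_nsmul
        (ι ⟨x, hx⟩)) O hO).and_eventually (eventually_ge_atTop 1)).exists
      have h7 : |n • x.1.1.2| < |x.1.1.2| := h4 (a := n • ⟨x, hx⟩) (by rwa [mem_preimage, map_nsmul])
      rw [nsmul_eq_mul, abs_mul, Nat.abs_cast] at h7
      nlinarith [abs_pos.2 h3, show (1 : ℝ) ≤ n by exact_mod_cast h6]
    obtain ⟨c, -, h4, h5, -⟩ := x.1.2
    rw [hf, h3, AddCircle.coe_zero, zero_sub] at h5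
    simpa [w2 c (isOfFinAddOrder_neg_iff.1 h5)] using h4
  have hU' := hU
  rw [← QuotientAddGroup.mk_zero, QuotientAddGroup.nhds_eq, mem_map, mem_nhds_subtype] at hU'
  obtain ⟨O', hO, h4⟩ := hU'
  obtain ⟨O, hO, h5⟩ := (mem_nhds_subtype _ _ _).1 hO
  obtain ⟨O1, o1, O3, o3, h6⟩ := mem_nhds_prod_iff.1 hO
  obtain ⟨O1, o1, O2, o2, h7⟩ := mem_nhds_prod_iff.1 o1
  obtain ⟨m, hm⟩ : ∃ m : ℕ, ∀ a : ZMod 4, (Pi.single m a : LL) ∈ O1 :=
    (eventually_all.2 fun a => (show Tendsto (fun m : ℕ => (Pi.single m a : LL)) atTop (𝓝 0) from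
      tendsto_pi_nhds.2 fun i => tendsto_const_nhds.congr' ((eventually_gt_atTop i).mono
        fun m hm => by simp [hm.ne])) o1).exists
  obtain ⟨n, n1, n2⟩ := hb.mem_iff.1 (show QuotientAddGroup.mk '' {x : f.ker | 2 • x.1.1.1.1 m = 0} ∈
      𝓝 (0 : f.ker ⧸ M) by
    rw [← QuotientAddGroup.mk_zero, QuotientAddGroup.nhds_eq]
    exact image_mem_map (((show Continuous fun x : f.ker => 2 • x.1.1.1.1 m by fun_prop).tendsto' 0 0
      (by simp)) (mem_nhds_discrete.2 (mem_singleton _))))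
  have h8 : Tendsto (fun i => w (m.pair i)) atTop (𝓝 0) :=
    w1.comp (tendsto_atTop_mono (fun i => Nat.right_le_pair m i) tendsto_id)
  obtain ⟨i, hi⟩ := ((eventually_all_finite (finite_Iic n)).2 fun k _ =>
    (show ∀ᶠ i in atTop, k • w (m.pair i) ∈ O3 from (by simpa using h8.const_smul k :
      Tendsto (fun i => k • w (m.pair i)) atTop (𝓝 0)) o3).and
    (show ∀ᶠ i in atTop, k • ((w (m.pair i) : ℝ) : UnitAddCircle) ∈ O2 from (by
      simpa using ((AddCircle.continuous_mk' 1).tendsto 0 |>.comp h8).const_smul k :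
      Tendsto (fun i => k • ((w (m.pair i) : ℝ) : UnitAddCircle)) atTop (𝓝 0)) o2)).exists
  let x : f.ker := ⟨⟨((Pi.single m 1, (w (m.pair i) : ℝ)), w (m.pair i)), .single (m.pair i) 1,
    .single (m.pair i) 1, by simp [la], by simpa [ta] using IsOfFinAddOrder.zero, by simp [ta]⟩,
    sub_self (_ : UnitAddCircle)⟩
  obtain ⟨y, y1, y2⟩ := n2 (a := (x : f.ker ⧸ M)) fun k _ hk => h4 (a := k • x) (h5 (h6
    ⟨h7 ⟨by simpa [x, ← Pi.single_smul] using hm (k • 1), (hi k hk).2⟩, (hi k hk).1⟩))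
  have h9 : 2 • (-y.1.1.1.1 m + x.1.1.1.1 m) = 0 := congrFun (h3 _ (QuotientAddGroup.eq.1 y2)) m
  rw [smul_add, smul_neg, show 2 • y.1.1.1.1 m = 0 from y1] at h9
  simp only [x, Pi.single_eq_same] at h9
  exact absurd h9 (by decide)

end Pool.Agent.Results.MP_e403d1_gt.ClosedSub
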